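import Pool.Agent.Run7.h619.AA.Defs

/-!
# Hyperbolic sets, Axiom A, spectral decomposition, cycles, the class `U_3`: definitions

Short forms of the definitions in `Pool/Agent/Run7/h619/AA`.
-/

set_option autoImplicit false

open Filter
open scoped Manifold ContDiff Topology

namespace Run7.h619.AU

open Pool.Agent.H718R2.G Pool.Agent.TH80.OMS Run7.h619.AA

section

variable {n : ℕ} {N : Type*} [TopologicalSpace N] [ChartedSpace (V n) N] {r : ℕ∞}

/-- the map `F` -/
noncomputable def fwd (F : DiffM n N r) : N → N := F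

/-- the map `F⁻¹` -/
noncomputable def bwd (F : DiffM n N r) : N → N := F.symm

/-- families of subspaces of the tangent spaces `T_x N = V n` -/
abbrev SubFam (n : ℕ) (N : Type*) := N → Submodule ℝ (V n)

/-- `S` is a closed subset of the tangent bundle. -/
def TanClosed (n : ℕ) {N : Type*} [TopologicalSpace N] [ChartedSpace (V n) N]
    [IsManifold (𝓡 n) ∞ N] (S : Set (N × V n)) : Prop :=
  IsClosed {p : TangentBundle (𝓡 n) N | (p.1, p.2) ∈ S}

/-- `K` is closed, `f(K) = K`. -/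
def IsInv (f : N → N) (K : Set N) : Prop := IsClosed K ∧ f '' K = K

/-- Over `K` the family `E` is a closed subset of the tangent bundle, and it is invariant under the
derivative of `f`. -/
def IsSubb [IsManifold (𝓡 n) ∞ N] (f : N → N) (K : Set N) (E : SubFam n N) : Prop :=
  TanClosed n {p : N × V n | p.1 ∈ K ∧ p.2 ∈ E p.1} ∧ ∀ x ∈ K, ∀ v, v ∈ E x ↔ dv n f x v ∈ E (f x)

/-- The set `K` is hyperbolic for the diffeomorphism `f` with inverse `g`: it is closed, `f(K) = K`, and
there are a splitting `T_K N = Es ⊕ Eu` into closed invariant families of subspaces, a continuous norm on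
the tangent bundle and constants `C > 0`, `0 < μ < 1` such that `‖Df^m v‖ ≤ C μ^m ‖v‖` for `v` in `Es`, and
`‖Df^(-m) v‖ ≤ C μ^m ‖v‖` for `v` in `Eu`, for all `m ≥ 0`. -/
def HypOn [IsManifold (𝓡 n) ∞ N] (f g : N → N) (K : Set N) : Prop :=
  IsInv f K ∧ ∃ (q : N → V n → ℝ) (Es Eu : SubFam n N) (C μ : ℝ), IsNormOn q ∧
    (∀ x ∈ K, IsCompl (Es x) (Eu x)) ∧ IsSubb f K Es ∧ IsSubb f K Eu ∧ 0 < C ∧ 0 < μ ∧ μ < 1 ∧
    Contr f K Es q C μ ∧ Contr g K Eu q C μ

end

section

variable {N : Type*} [TopologicalSpace N]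

/-- `W^s(P)` for the map `f`: the points `y` such that `f^m(x)` and `f^m(y)`, `m → ∞`, come together, for
some `x ∈ P`. (On a compact metric space: `d(f^m(x), f^m(y)) → 0`.) -/
def Ws (f : N → N) (P : Set N) : Set N :=
  {y | ∃ x ∈ P, ∀ O : Set (N × N), IsOpen O → (∀ z, (z, z) ∈ O) →
    ∀ᶠ m : ℕ in atTop, (f^[m] x, f^[m] y) ∈ O}

/-- `P 0, ..., P (l - 1)` is the spectral decomposition of `Ω(f)`: these are disjoint closed invariant
sets, each of which contains a dense orbit, with union `Ω(f)`. -/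
structure IsSpectral (f : N → N) {l : ℕ} (P : Fin l → Set N) : Prop where
  inv : ∀ i, IsInv f (P i)
  disj : ∀ i j, i ≠ j → Disjoint (P i) (P j)
  union : (⋃ i, P i) = Omega f
  dense : ∀ i, ∃ z ∈ P i, P i ⊆ closure (Set.range fun m : ℕ => f^[m] z)

/-- There is no cycle of `k + 1 > 1` different pieces `P (s 0), ..., P (s k)`, that is, with
`W^u(P (s i)) ∩ W^s(P (s (i + 1))) ≠ ∅` for `i < k`, and `W^u(P (s k)) ∩ W^s(P (s 0)) ≠ ∅`; here `g` is the
inverse of `f`, `W^u` for `f` is `W^s` for `g`. -/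
def NoCycles (f g : N → N) {l : ℕ} (P : Fin l → Set N) : Prop :=
  ∀ (k : ℕ) (s : ℕ → Fin l), 1 ≤ k → (∀ i ≤ k, ∀ j ≤ k, s i = s j → i = j) →
    ¬ ((∀ i < k, (Ws g (P (s i)) ∩ Ws f (P (s (i + 1)))).Nonempty) ∧
      (Ws g (P (s k)) ∩ Ws f (P (s 0))).Nonempty)

end

variable {n : ℕ} {N : Type*} [TopologicalSpace N] [ChartedSpace (V n) N] [IsManifold (𝓡 n) ∞ N]
  {r : ℕ∞}

/-- The class `U_3`: Axiom A (the nonwandering set is hyperbolic, the periodic points are dense in it), and
no cycles in the spectral decomposition. -/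
def InU3 (f g : N → N) : Prop :=
  HypOn (n := n) f g (Omega f) ∧ Omega f ⊆ closure (Per f) ∧
    (∃ (l : ℕ) (P : Fin l → Set N), IsSpectral f P) ∧
    ∀ (l : ℕ) (P : Fin l → Set N), IsSpectral f P → NoCycles f g P

end Run7.h619.AU
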