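import Pool.Agent.Run7.h619.AU.Defs
import Pool.Agent.Run7.h619.AA.NoCyc

/-!
# The two forms of the definitions agree
-/

set_option autoImplicit false

open Filter
open scoped Manifold ContDiff Topology

universe u v w

namespace Run7.h619.AU

open Pool.Agent.H718R2.G Pool.Agent.TH80.OMS Run7.h619.AA

section

variable {n : ℕ} {N : Type*} [TopologicalSpace N] [ChartedSpace (V n) N] [IsManifold (𝓡 n) ∞ N]
  {r : ℕ∞}

theorem hypOn_iff (F : DiffM n N r) (K : Set N) :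
    HypOn (n := n) (fwd F) (bwd F) K ↔ IsHyperbolic F K := by
  constructor
  · rintro ⟨⟨h1, h2⟩, q, Es, Eu, C, μ, h3, h4, h5, h6, h7, h8, h9, h10, h11⟩
    exact ⟨h1, h2, q, Es, Eu, C, μ, h3, ⟨h4, h5.2, h6.2, h5.1, h6.1⟩, h7, h8, h9, h10, h11⟩
  · rintro ⟨h1, h2, q, Es, Eu, C, μ, h3, h4, h7, h8, h9, h10, h11⟩
    exact ⟨⟨h1, h2⟩, q, Es, Eu, C, μ, h3, h4.compl, ⟨h4.closed_s, h4.inv_s⟩,
      ⟨h4.closed_u, h4.inv_u⟩, h7, h8, h9, h10, h11⟩

theorem inU3 (F : DiffM n N r) (h : U3 F) : InU3 (n := n) (fwd F) (bwd F) := by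
  obtain ⟨h1, ⟨l, P, hP⟩, h3⟩ := h
  refine ⟨(hypOn_iff F _).2 h1.1, h1.2, ⟨l, P, fun i => ⟨hP.closed i, hP.inv i⟩, hP.disj, hP.union,
    hP.dense⟩, fun l P hP => ?_⟩
  exact h3 l P ⟨fun i => (hP.inv i).1, fun i => (hP.inv i).2, hP.disj, hP.union, hP.dense⟩

end

theorem main {d k b n : ℕ} {M : Type v} {B : Type w} {N : Type u} [TopologicalSpace M] [T2Space M]
    [CompactSpace M] [ChartedSpace (V k) M] [IsManifold (𝓡 k) ∞ M] [MetricSpace B] [CompactSpace B]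
    [ChartedSpace (V b) B] [IsManifold (𝓡 b) ∞ B] [TopologicalSpace N] [T2Space N] [CompactSpace N]
    [ChartedSpace (V n) N] [IsManifold (𝓡 n) ∞ N] [Infinite B] {r : ℕ∞} (hr : 1 ≤ r)
    {Θ : PDiff k b n M B N} {φ : V d → M → M} {h : DiffM b B r} {c : B → V d} {F : DiffM n N r}
    (H : IsActSkew Θ φ h c F) (hh : HypOn (n := b) (fwd h) (bwd h) Set.univ) (hs : ShadowPer h)
    (hT : TransChain h) (hF : OmegaStable n N r F) : InU3 (n := n) (fwd F) (bwd F) :=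
  inU3 F (u3_of_stable hr hF H ((hypOn_iff h _).1 hh) hs hT)

end Run7.h619.AU
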